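import Pool.Agent.Helper62K9.SC.Main

set_option autoImplicit false

/-!
# Supercongruences for alternating sums weighted by odd powers of `4 k - 1`

Idea of the proof. Write `a_k` for the cube of `(-1/2)_k / k!` and `x = 4 k - 1`.
(1) For every `j` the sum over `k ≤ N` of `(-1)^k a_k` times
`(x - 1)^3 (x + 2)^(2 j) + (x + 1)^3 (x - 2)^(2 j)` telescopes, and this polynomial is twice a monic
odd polynomial of degree `2 j + 3` with integral coefficients. So the sum with exponent `2 i + 1` is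
an integral multiple `- c` of the sum with exponent `1`, up to an integral multiple of
`32 (N + 1)^3 a_{N + 1}`, which is divisible by `p ^ (3 r)` for both truncations.
(2) For the exponent `1` a WZ pair reduces the sum to one term, which is computed modulo
`p ^ (r + 2)` from the values of `choose (2 q) q` and `choose (q - 1) ((q - 1) / 2)` modulo `p ^ 2`,
`q = p ^ r`; all other terms are divisible by `p ^ (r + 2)`.
-/

namespace Pool.Agent.Results.MP_638395_nt.OddPowers

/-- the rising factorial `(a)_k = a (a + 1) ⋯ (a + k - 1)` -/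
def rising (a : ℚ) (k : ℕ) : ℚ := ∏ i ∈ Finset.range k, (a + i)

/-- the sum `S_m(N)` -/
def S (m N : ℕ) : ℚ :=
  ∑ k ∈ Finset.range (N + 1), (-1) ^ k * (4 * (k : ℚ) - 1) ^ m * (rising (-1 / 2) k) ^ 3 /
    (k.factorial : ℚ) ^ 3

/-- `x ≡ y (mod p ^ n)`: the difference is zero or has `p`-adic valuation at least `n`. -/
def Cong (p n : ℕ) (x y : ℚ) : Prop := x - y = 0 ∨ (n : ℤ) ≤ padicValRat p (x - y)

lemma S_eq (m N : ℕ) : S m N = Pool.Agent.Helper62K9.SC.S m N := by
  unfold S Pool.Agent.Helper62K9.SC.S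
  apply Finset.sum_congr rfl
  intro k _
  unfold Pool.Agent.Helper62K9.SC.b Pool.Agent.Helper62K9.SC.poch rising
  rw [div_pow]
  ring

lemma sign (k : ℕ) : ∀ r h : ℕ, (2 * k + 1) ^ r = 2 * h + 1 → (-1 : ℚ) ^ h = (-1) ^ (k * r) := by
  intro r
  induction r with
  | zero => intro h hh; simp at hh; simp [hh]
  | succ r ih =>
    intro h hh
    obtain ⟨g, hg⟩ : ∃ g, (2 * k + 1) ^ r = 2 * g + 1 := by
      have : Odd ((2 * k + 1) ^ r) := Odd.pow ⟨k, rfl⟩
      exact this
    have h1 := ih g hg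
    rw [pow_succ, hg] at hh
    have h2 : h = 2 * (g * k) + (g + k) := by nlinarith
    rw [h2, pow_add, pow_mul, pow_add, h1, Nat.mul_succ, pow_add]
    norm_num

/-- **Main result.** For every odd `m` there is an integer `c m`, with the conjectured values for
`m ≤ 11`, such that both congruences hold for all odd primes `p` and all `r ≥ 1`. -/
theorem result : ∃ c : ℕ → ℤ,
    (c 1 = -1 ∧ c 3 = 3 ∧ c 5 = 23 ∧ c 7 = -5 ∧ c 9 = 1647 ∧ c 11 = -96973) ∧
    ∀ m : ℕ, Odd m → ∀ p : ℕ, p.Prime → p ≠ 2 → ∀ r : ℕ, 1 ≤ r →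
      Cong p (r + 2) (S m ((p ^ r + 1) / 2)) (c m * (p : ℚ) ^ r * (-1) ^ ((p - 1) * r / 2)) ∧
      Cong p (r + 2) (S m (p ^ r - 1)) (c m * (p : ℚ) ^ r * (-1) ^ ((p - 1) * r / 2)) := by
  refine ⟨fun m => Pool.Agent.Helper62K9.SC.cst (m / 2), ?_, ?_⟩
  · have c0 : Pool.Agent.Helper62K9.SC.cst 0 = -1 := by rw [Pool.Agent.Helper62K9.SC.cst]
    have c1 : Pool.Agent.Helper62K9.SC.cst 1 = 3 := by
      rw [Pool.Agent.Helper62K9.SC.cst, c0]; simp
    have c2 : Pool.Agent.Helper62K9.SC.cst 2 = 23 := by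
      rw [Pool.Agent.Helper62K9.SC.cst]
      simp [Fin.sum_univ_succ, c0, c1, Nat.choose]
    have c3 : Pool.Agent.Helper62K9.SC.cst 3 = -5 := by
      rw [Pool.Agent.Helper62K9.SC.cst]
      simp [Fin.sum_univ_succ, c0, c1, c2, Nat.choose]
    have c4 : Pool.Agent.Helper62K9.SC.cst 4 = 1647 := by
      rw [Pool.Agent.Helper62K9.SC.cst]
      simp [Fin.sum_univ_succ, c0, c1, c2, c3, Nat.choose]
    have c5 : Pool.Agent.Helper62K9.SC.cst 5 = -96973 := by
      rw [Pool.Agent.Helper62K9.SC.cst]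
      simp [Fin.sum_univ_succ, c0, c1, c2, c3, c4, Nat.choose]
    exact ⟨c0, c1, c2, c3, c4, c5⟩
  · rintro m ⟨i, rfl⟩ p hp h2 r hr
    obtain ⟨k, hk⟩ : ∃ k, p = 2 * k + 1 := hp.odd_of_ne_two h2
    obtain ⟨h, hq⟩ : ∃ h, p ^ r = 2 * h + 1 := (hp.odd_of_ne_two h2).pow
    have hs : (-1 : ℚ) ^ ((p - 1) * r / 2) = (-1) ^ h := by
      rw [sign k r h (by rw [← hk]; exact hq)]
      congr 1
      rw [hk, Nat.add_sub_cancel, mul_assoc, Nat.mul_div_cancel_left _ (by norm_num)]
    have h1 : (p ^ r + 1) / 2 = h + 1 := by omega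
    have h3 : p ^ r - 1 = 2 * h := by omega
    have hi : (2 * i + 1) / 2 = i := by omega
    simp only [hi, hs, h1, h3, S_eq, mul_assoc]
    exact ⟨(Pool.Agent.Helper62K9.SC.S_cong hp h2 hr hq i (h + 1) (Or.inl rfl)).val hp,
      (Pool.Agent.Helper62K9.SC.S_cong hp h2 hr hq i (2 * h) (Or.inr rfl)).val hp⟩

end Pool.Agent.Results.MP_638395_nt.OddPowers
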